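import Pool.Agent.Helper68.QC.St6

/-!
# Project QD (MP_d112a4_gt), PART M, module LWT: weak derivatives of the logarithm
-/

open MeasureTheory Set Filter Topology Complex
open scoped ContDiff ComplexConjugate ENNReal

namespace Pool.Agent.Helper38.QCM

open Pool.Agent.Helper68.QC

private theorem int_cont {U : Set ℂ} (hU : IsOpen U) {g ψ : ℂ → ℂ} (hg : ContinuousOn g U)
    (h : Tst U ψ) : Integrable fun z => g z * ψ z := by
  refine Continuous.integrable_of_hasCompactSupport ?_ h.cpt.mul_left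
  rw [continuous_iff_continuousAt]
  intro z
  by_cases hz : z ∈ tsupport ψ
  · exact (hg.continuousAt (hU.mem_nhds (h.sub hz))).mul h.continuous.continuousAt
  · have h0 : ψ =ᶠ[𝓝 z] 0 := notMem_tsupport_iff_eventuallyEq.1 hz
    refine ContinuousAt.congr (f := fun _ => (0 : ℂ)) continuousAt_const ?_
    filter_upwards [h0] with x hx
    simp [hx]

private theorem int_L2 {U : Set ℂ} {a φ : ℂ → ℂ} (ha : L2 U a) (h : Tst U φ) :
    Integrable fun z => a z * φ z := by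
  have hK : IsCompact (tsupport φ) := h.cpt
  have hfin : IsFiniteMeasure ((volume : Measure ℂ).restrict (tsupport φ)) :=
    ⟨by rw [Measure.restrict_apply_univ]; exact hK.measure_lt_top⟩
  have h1 : MemLp a 2 (volume.restrict (tsupport φ)) := ha _ h.sub hK
  have h2 : MemLp φ 2 (volume.restrict (tsupport φ)) := by
    obtain ⟨C, hC⟩ := h.continuous.bounded_above_of_compact_support h.cpt
    exact MemLp.of_bound h.continuous.aestronglyMeasurable C (ae_of_all _ hC)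
  have h3 : Integrable (fun z => a z * φ z) (volume.restrict (tsupport φ)) :=
    MemLp.integrable_mul h1 h2
  refine (integrableOn_iff_integrable_of_support_subset ?_).1 h3
  intro z hz
  by_contra hc
  have h0 : φ z = 0 := image_eq_zero_of_notMem_tsupport hc
  rw [Function.mem_support] at hz
  exact hz (by rw [h0, mul_zero])

private theorem l2_congr {U : Set ℂ} {a a' : ℂ → ℂ} (ha : L2 U a) (h : ∀ z ∈ U, a z = a' z) :
    L2 U a' := by
  intro K hK hc
  refine (memLp_congr_ae ?_).1 (ha K hK hc)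
  exact (ae_restrict_iff' hc.measurableSet).2 (ae_of_all _ fun z hz => h z (hK hz))

private theorem int_congr {U : Set ℂ} {a a' φ : ℂ → ℂ} (h : ∀ z ∈ U, a z = a' z) (hφ : Tst U φ) :
    ∫ z, a z * φ z = ∫ z, a' z * φ z := by
  congr 1
  funext z
  by_cases hz : z ∈ U
  · rw [h z hz]
  · have h0 : φ z = 0 := image_eq_zero_of_notMem_tsupport fun hc => hz (hφ.sub hc)
    rw [h0, mul_zero, mul_zero]

private theorem wd_congr {U : Set ℂ} {f a b f' a' b' : ℂ → ℂ} (h : WD U f a b)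
    (hf : ∀ z ∈ U, f z = f' z) (ha : ∀ z ∈ U, a z = a' z) (hb : ∀ z ∈ U, b z = b' z) :
    WD U f' a' b' where
  cont := h.cont.congr fun z hz => (hf z hz).symm
  l2a := l2_congr h.l2a ha
  l2b := l2_congr h.l2b hb
  dz φ hφ := by rw [← int_congr hf hφ.hdz, ← int_congr ha hφ, h.dz φ hφ]
  dzb φ hφ := by rw [← int_congr hf hφ.hdzb, ← int_congr hb hφ, h.dzb φ hφ]

private theorem wd_sub {U : Set ℂ} (hU : IsOpen U) {f a b g c d : ℂ → ℂ} (h : WD U f a b)
    (h' : WD U g c d) :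
    WD U (fun z => f z - g z) (fun z => a z - c z) (fun z => b z - d z) where
  cont := h.cont.sub h'.cont
  l2a K hK hc := (h.l2a K hK hc).sub (h'.l2a K hK hc)
  l2b K hK hc := (h.l2b K hK hc).sub (h'.l2b K hK hc)
  dz φ hφ := by
    simp only [sub_mul]
    rw [integral_sub (int_cont hU h.cont hφ.hdz) (int_cont hU h'.cont hφ.hdz),
      integral_sub (int_L2 h.l2a hφ) (int_L2 h'.l2a hφ), h.dz φ hφ, h'.dz φ hφ]
    ring
  dzb φ hφ := by
    simp only [sub_mul]
    rw [integral_sub (int_cont hU h.cont hφ.hdzb) (int_cont hU h'.cont hφ.hdzb),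
      integral_sub (int_L2 h.l2b hφ) (int_L2 h'.l2b hφ), h.dzb φ hφ, h'.dzb φ hφ]
    ring

/-- near `1` the principal logarithm is small -/
private theorem log_small {x : ℂ} (hx : ‖x - 1‖ < 1 / 2) : ‖Complex.log x‖ ≤ 3 / 4 ∧
    x ∈ Complex.slitPlane := by
  have h1 : ‖Complex.log (1 + (x - 1))‖ ≤ 3 / 2 * ‖x - 1‖ :=
    Complex.norm_log_one_add_half_le_self hx.le
  rw [add_sub_cancel] at h1
  refine ⟨by linarith, ?_⟩
  rw [Complex.mem_slitPlane_iff]
  left
  have h2 : |(x - 1).re| ≤ ‖x - 1‖ := Complex.abs_re_le_norm _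
  have h3 := abs_le.1 (h2.trans hx.le)
  simp only [Complex.sub_re, Complex.one_re] at h3
  linarith [h3.1]

/-- scaled logarithm -/
private theorem lg_deriv {c x : ℂ} (hc : c ≠ 0) (hx : ‖x / c - 1‖ < 1 / 2) :
    HasDerivAt (fun y => Complex.log (y / c)) (1 / x) x := by
  have h1 := (log_small hx).2
  have h2 : HasDerivAt (fun y : ℂ => y / c) (1 / c) x := (hasDerivAt_id x).div_const c
  have h3 := h2.clog h1
  refine h3.congr_deriv ?_
  have hx0 : x ≠ 0 := by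
    intro h0
    rw [h0] at hx
    norm_num at hx
  field_simp

theorem pLWT (hLOC : StLOC) (hCHR : StCHR) : Pool.Agent.Helper68.QC.StLWT := by
  intro w Ψ a b hw hΨ hexp
  have hU : IsOpen ({0}ᶜ : Set ℂ) := isOpen_compl_singleton
  refine hLOC _ _ _ _ hU ?_
  intro ξ₀ hξ₀
  have hξ0 : ξ₀ ≠ 0 := hξ₀
  have hw0 : w ξ₀ ≠ 0 := by
    rw [hexp ξ₀ hξ0]
    exact mul_ne_zero hξ0 (Complex.exp_ne_zero _)
  have hwc : Continuous w := continuousOn_univ.1 hw.cont
  -- the neighbourhood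
  have e1 : ∀ᶠ ξ in 𝓝 ξ₀, ‖w ξ / w ξ₀ - 1‖ < 1 / 2 := by
    have : ContinuousAt (fun ξ => ‖w ξ / w ξ₀ - 1‖) ξ₀ := by fun_prop
    refine this.eventually_lt continuousAt_const ?_
    rw [div_self hw0]
    norm_num
  have e2 : ∀ᶠ ξ in 𝓝 ξ₀, ‖ξ / ξ₀ - 1‖ < 1 / 2 := by
    have : ContinuousAt (fun ξ => ‖ξ / ξ₀ - 1‖) ξ₀ := by fun_prop
    refine this.eventually_lt continuousAt_const ?_
    rw [div_self hξ0]
    norm_num
  have e3 : ∀ᶠ ξ in 𝓝 ξ₀, ‖Ψ ξ - Ψ ξ₀‖ < 1 := by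
    have h1 : ContinuousAt Ψ ξ₀ := hΨ.continuousAt (hU.mem_nhds hξ₀)
    have : ContinuousAt (fun ξ => ‖Ψ ξ - Ψ ξ₀‖) ξ₀ := (h1.sub continuousAt_const).norm
    refine this.eventually_lt continuousAt_const ?_
    simp
  obtain ⟨V, hV, hVo, hξV⟩ := mem_nhds_iff.1 (e1.and (e2.and e3))
  have v1 : ∀ ξ ∈ V, ‖w ξ / w ξ₀ - 1‖ < 1 / 2 := fun ξ hξ => (hV hξ).1
  have v2 : ∀ ξ ∈ V, ‖ξ / ξ₀ - 1‖ < 1 / 2 := fun ξ hξ => (hV hξ).2.1
  have v3 : ∀ ξ ∈ V, ‖Ψ ξ - Ψ ξ₀‖ < 1 := fun ξ hξ => (hV hξ).2.2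
  have vne : ∀ ξ ∈ V, ξ ≠ 0 := by
    intro ξ hξ h0
    have := v2 ξ hξ
    rw [h0] at this
    norm_num at this
  refine ⟨V, hVo, hξV, fun ξ hξ => vne ξ hξ, ?_⟩
  -- the formula for `Ψ`
  have key : ∀ ξ ∈ V, Complex.log (w ξ / w ξ₀) - (Complex.log (ξ / ξ₀) - Ψ ξ₀) = Ψ ξ := by
    intro ξ hξ
    have hξn := vne ξ hξ
    have hwn : w ξ ≠ 0 := by
      rw [hexp ξ hξn]
      exact mul_ne_zero hξn (Complex.exp_ne_zero _)
    have hE : Complex.exp (Complex.log (w ξ / w ξ₀) - (Complex.log (ξ / ξ₀) - Ψ ξ₀)) =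
        Complex.exp (Ψ ξ) := by
      rw [Complex.exp_sub, Complex.exp_sub, Complex.exp_log (div_ne_zero hwn hw0),
        Complex.exp_log (div_ne_zero hξn hξ0), hexp ξ hξn, hexp ξ₀ hξ0]
      have := Complex.exp_ne_zero (Ψ ξ₀)
      field_simp
    obtain ⟨n, hn⟩ := Complex.exp_eq_exp_iff_exists_int.1 hE
    have l1 := (log_small (v1 ξ hξ)).1
    have l2 := (log_small (v2 ξ hξ)).1
    have l3 := v3 ξ hξ
    have hnorm : ‖(n : ℂ) * (2 * Real.pi * I)‖ < 2 * Real.pi := by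
      have e : (n : ℂ) * (2 * Real.pi * I) =
          Complex.log (w ξ / w ξ₀) - Complex.log (ξ / ξ₀) - (Ψ ξ - Ψ ξ₀) := by
        linear_combination -hn
      rw [e]
      have t1 := norm_sub_le (Complex.log (w ξ / w ξ₀) - Complex.log (ξ / ξ₀)) (Ψ ξ - Ψ ξ₀)
      have t2 := norm_sub_le (Complex.log (w ξ / w ξ₀)) (Complex.log (ξ / ξ₀))
      have := Real.pi_gt_three
      linarith
    have hn0 : n = 0 := by
      rw [norm_mul, norm_mul, norm_mul, Complex.norm_I, Complex.norm_intCast, mul_one,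
        Complex.norm_real, Complex.norm_ofNat, Real.norm_eq_abs, abs_of_pos Real.pi_pos] at hnorm
      have h1 : |(n : ℝ)| < 1 := by
        by_contra hc
        push Not at hc
        have := Real.pi_pos
        nlinarith
      have h2 : |n| < 1 := by exact_mod_cast h1
      exact Int.abs_lt_one_iff.1 h2
    rw [hn, hn0]
    simp
  -- `log (w ξ / w ξ₀)`
  obtain ⟨W, hWd⟩ : ∃ W : Set ℂ, W = {x | ‖x / w ξ₀ - 1‖ < 1 / 2} := ⟨_, rfl⟩
  have hWo : IsOpen W := by
    rw [hWd]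
    exact isOpen_lt (by fun_prop) continuous_const
  have hWm : ∀ x ∈ W, ‖x / w ξ₀ - 1‖ < 1 / 2 := fun x hx => by rw [hWd] at hx; exact hx
  have hFd : DifferentiableOn ℂ (fun y => Complex.log (y / w ξ₀)) W := fun x hx =>
    (lg_deriv hw0 (hWm x hx)).differentiableAt.differentiableWithinAt
  have hFs : ContDiffOn ℝ ∞ (fun y => Complex.log (y / w ξ₀)) W := by
    have : ContDiffOn ℂ ∞ (fun y => Complex.log (y / w ξ₀)) W := hFd.contDiffOn hWo
    exact this.restrict_scalars ℝ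
  have h1 := hCHR V W w a b (fun y => Complex.log (y / w ξ₀)) hVo hWo (hw.mono (subset_univ _))
    (fun ξ hξ => by rw [hWd]; exact v1 ξ hξ) hFs
  -- `log (ξ / ξ₀) - Ψ ξ₀`
  have hGd : DifferentiableOn ℂ (fun y => Complex.log (y / ξ₀) - Ψ ξ₀) V := fun x hx =>
    ((lg_deriv hξ0 (v2 x hx)).sub_const (Ψ ξ₀)).differentiableAt.differentiableWithinAt
  have hGs : ContDiffOn ℝ 1 (fun y => Complex.log (y / ξ₀) - Ψ ξ₀) V := by
    have : ContDiffOn ℂ 1 (fun y => Complex.log (y / ξ₀) - Ψ ξ₀) V := hGd.contDiffOn hVo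
    exact this.restrict_scalars ℝ
  have h2 := wd_smoothOn hVo hGs
  have h3 := wd_sub hVo h1 h2
  refine wd_congr h3 key ?_ ?_
  · intro ξ hξ
    have dF := lg_deriv hw0 (v1 ξ hξ)
    have dG := (lg_deriv hξ0 (v2 ξ hξ)).sub_const (Ψ ξ₀)
    rw [dz_holo dF.differentiableAt, dzb_holo dF.differentiableAt, dF.deriv,
      dz_holo dG.differentiableAt, dG.deriv]
    ring
  · intro ξ hξ
    have dF := lg_deriv hw0 (v1 ξ hξ)
    have dG := (lg_deriv hξ0 (v2 ξ hξ)).sub_const (Ψ ξ₀)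
    rw [dz_holo dF.differentiableAt, dzb_holo dF.differentiableAt, dF.deriv,
      dzb_holo dG.differentiableAt]
    ring

end Pool.Agent.Helper38.QCM
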